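import Pool.Agent.H74.TSD.Targets

set_option autoImplicit false

open MeasureTheory Set Metric Filter
open scoped ENNReal Pointwise Topology

namespace Pool.Agent.H6.TSD

open Pool.Agent.H74.TSD Pool.Agent.H73.TS

/-- The dual basis of functionals with nonzero determinant. -/
theorem exists_dual {d : ℕ} (f : Fin d → (E d →L[ℝ] ℝ)) (hf : dt f ≠ 0) :
    ∃ w : Fin d → E d, (∀ i j, f i (w j) = if i = j then 1 else 0) ∧
      ∀ x : E d, x = ∑ i, f i x • w i := by
  classical
  set A : Matrix (Fin d) (Fin d) ℝ :=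
    Matrix.of fun i j => f i (EuclideanSpace.single j (1 : ℝ)) with hA
  have hdet : IsUnit A.det := isUnit_iff_ne_zero.mpr hf
  have hexp : ∀ (φ : E d →L[ℝ] ℝ) (x : E d),
      φ x = ∑ j, x j * φ (EuclideanSpace.single j (1 : ℝ)) := by
    intro φ x
    have hx : x = ∑ j, x j • EuclideanSpace.single j (1 : ℝ) := by
      ext k
      simp [Finset.sum_apply, Pi.single_apply]
    conv_lhs => rw [hx]
    rw [map_sum]
    refine Finset.sum_congr rfl fun j _ => ?_
    rw [map_smul, smul_eq_mul]
  refine ⟨fun j => WithLp.toLp 2 (fun k => A⁻¹ k j), ?_, ?_⟩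
  · intro i j
    rw [hexp (f i)]
    have h : ∑ k, A⁻¹ k j * f i (EuclideanSpace.single k (1 : ℝ)) = (A * A⁻¹) i j := by
      rw [Matrix.mul_apply]
      refine Finset.sum_congr rfl fun k _ => ?_
      rw [mul_comm]
      rfl
    have h2 : (A * A⁻¹) i j = if i = j then 1 else 0 := by
      rw [Matrix.mul_nonsing_inv A hdet, Matrix.one_apply]
    rw [← h2, ← h]
  · intro x
    have hfx : ∀ i, f i x = A.mulVec (fun k => x k) i := by
      intro i
      rw [hexp (f i) x]
      simp only [Matrix.mulVec, dotProduct]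
      refine Finset.sum_congr rfl fun k _ => ?_
      rw [mul_comm]
      rfl
    ext k
    have h3 : (∑ i, f i x • (WithLp.toLp 2 (fun k => A⁻¹ k i) : E d)) k
        = A⁻¹.mulVec (A.mulVec (fun k => x k)) k := by
      have : (∑ i, f i x • (WithLp.toLp 2 (fun k => A⁻¹ k i) : E d)) k
          = ∑ i, (f i x • (WithLp.toLp 2 (fun k => A⁻¹ k i) : E d)) k := by
        simp [Finset.sum_apply]
      rw [this]
      simp only [Matrix.mulVec, dotProduct]
      refine Finset.sum_congr rfl fun i _ => ?_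
      have h4 := hfx i
      simp only [Matrix.mulVec, dotProduct] at h4
      rw [← h4]
      simp [mul_comm]
    rw [h3, Matrix.mulVec_mulVec, Matrix.nonsing_inv_mul A hdet, Matrix.one_mulVec]

theorem pf_BC (h1 : T_W1) (hs : T_SIN) (hc : T_NC) (hd : T_D2) (ht : T_CT) : T_BC := by
  classical
  intro d K T f g p q W hd2 hK hKc hKi hf hwf hpq hW hmax hsep
  have hKn : K.Nonempty := hKi.mono interior_subset
  obtain ⟨-, hwsm, hwc, hwp⟩ := h1 d K hK hKn
  have hwp := hwp hKi
  obtain ⟨hNcl, hNcone⟩ := hc d f W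
  obtain ⟨w, hw, hdec⟩ := exists_dual f hf
  obtain ⟨hD1, hD2⟩ := hd d f w hw
  have hpair := LinearIndependent.pair_iff.mp hpq
  -- notation
  set γ : Fin d → ℝ × ℝ := fun i => (p (w i), q (w i)) with hγ
  set F : ℝ × ℝ → (E d →L[ℝ] ℝ) := fun P => P.1 • p + P.2 • q with hF
  have hFw : ∀ P i, F P (w i) = ev P (γ i) := by
    intro P i
    simp [hF, hγ, ev]
  have hlin : ∀ (φ : E d →L[ℝ] ℝ) (x : E d), φ x = ∑ i, f i x * φ (w i) := by
    intro φ x
    conv_lhs => rw [hdec x]
    rw [map_sum]
    refine Finset.sum_congr rfl fun j _ => ?_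
    rw [map_smul, smul_eq_mul]
  have hFx : ∀ P x, F P x = ev P (pr γ (fun i => f i x)) := by
    intro P x
    rw [hlin (F P) x]
    simp only [hFw, ev, pr, Prod.fst_sum, Prod.snd_sum, Prod.smul_fst, Prod.smul_snd, smul_eq_mul]
    rw [Finset.mul_sum, Finset.mul_sum, ← Finset.sum_add_distrib]
    refine Finset.sum_congr rfl fun j _ => ?_
    ring
  have hFne : ∀ P, P ≠ 0 → F P ≠ 0 := by
    intro P hP h0
    obtain ⟨ha, hb⟩ := hpair P.1 P.2 h0
    exact hP (Prod.ext ha hb)
  have hFsm : ∀ (a : ℝ) P, F (a • P) = a • F P := by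
    intro a P
    simp only [hF, Prod.smul_fst, Prod.smul_snd, smul_eq_mul, smul_add, smul_smul]
  have hFcont : Continuous F := by
    simp only [hF]
    exact (continuous_fst.smul continuous_const).add (continuous_snd.smul continuous_const)
  set U : Set (ℝ × ℝ) := {P | wdt K (F P) = 1 ∧ F P ∈ W} with hU
  have hUcl : IsClosed U := by
    have hWcl : IsClosed (W : Set (E d →L[ℝ] ℝ)) := Submodule.closed_of_finiteDimensional W
    exact (isClosed_eq (hwc.comp hFcont) continuous_const).inter (hWcl.preimage hFcont)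
  have hUbd : Bornology.IsBounded U := by
    have hSc : IsCompact (sphere (0 : ℝ × ℝ) 1) := isCompact_sphere _ _
    have hSn : (sphere (0 : ℝ × ℝ) 1).Nonempty := ⟨((1 : ℝ), (0 : ℝ)), by
      rw [mem_sphere_zero_iff_norm, Prod.norm_def]
      simp⟩
    obtain ⟨P0, hP0, hmin⟩ := hSc.exists_isMinOn hSn (hwc.comp hFcont).continuousOn
    have hP0ne : P0 ≠ 0 := by
      intro h
      rw [h, mem_sphere_zero_iff_norm, norm_zero] at hP0
      exact zero_ne_one hP0
    have hε : 0 < wdt K (F P0) := hwp _ (hFne P0 hP0ne)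
    set ε := wdt K (F P0) with hεd
    refine isBounded_iff_forall_norm_le.mpr ⟨1 / ε, ?_⟩
    intro P hP
    by_cases hP0' : P = 0
    · rw [hP0', norm_zero]
      positivity
    · have hn : 0 < ‖P‖ := norm_pos_iff.mpr hP0'
      have hmem : (‖P‖⁻¹ • P) ∈ sphere (0 : ℝ × ℝ) 1 := by
        rw [mem_sphere_zero_iff_norm, norm_smul, norm_inv, norm_norm, inv_mul_cancel₀ hn.ne']
      have h5 : ε ≤ wdt K (F (‖P‖⁻¹ • P)) := hmin hmem
      rw [hFsm, hwsm, hP.1, abs_of_pos (inv_pos.mpr hn), mul_one] at h5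
      rw [le_div_iff₀ hε]
      calc ‖P‖ * ε ≤ ‖P‖ * ‖P‖⁻¹ := mul_le_mul_of_nonneg_left h5 hn.le
        _ = 1 := mul_inv_cancel₀ hn.ne'
  have hUc : IsCompact U := Metric.isCompact_of_isClosed_isBounded hUcl hUbd
  have hfN : ∀ i, f i ∈ Nrm f W := fun i => Or.inl ⟨i, 1, by rw [one_smul]⟩
  have hdf : 0 < |dt f| := abs_pos.mpr hf
  set c : ℝ := |dt g| / |dt f| with hcd
  have hc1 : 1 ≤ c := by
    rw [hcd, le_div_iff₀ hdf, one_mul]
    exact hmax f fun i => ⟨hfN i, hwf i⟩
  have hc0 : 0 ≤ c := le_trans zero_le_one hc1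
  have hev : ∀ P ∈ U, ∀ i, |ev P (γ i)| ≤ c := by
    intro P hP i
    have h6 := hmax (Function.update f i (F P)) (by
      intro j
      by_cases hj : j = i
      · subst hj
        rw [Function.update_self]
        exact ⟨Or.inr hP.2, hP.1⟩
      · rw [Function.update_of_ne hj]
        exact ⟨hfN j, hwf j⟩)
    rw [hD1, hFw, abs_mul] at h6
    rw [hcd, le_div_iff₀ hdf]
    exact h6
  have hwd : ∀ P ∈ U, ∀ Q ∈ U, ∀ i j, |wd P Q| * |wd (γ i) (γ j)| ≤ c := by
    intro P hP Q hQ i j
    by_cases hij : i = j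
    · subst hij
      have : wd (γ i) (γ i) = 0 := by
        unfold wd
        ring
      rw [this, abs_zero, mul_zero]
      exact hc0
    · have h6 := hmax (Function.update (Function.update f i (F P)) j (F Q)) (by
        intro k
        by_cases hk : k = j
        · subst hk
          rw [Function.update_self]
          exact ⟨Or.inr hQ.2, hQ.1⟩
        · rw [Function.update_of_ne hk]
          by_cases hk2 : k = i
          · subst hk2
            rw [Function.update_self]
            exact ⟨Or.inr hP.2, hP.1⟩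
          · rw [Function.update_of_ne hk2]
            exact ⟨hfN k, hwf k⟩)
      rw [hD2 _ _ i j hij, hFw, hFw, hFw, hFw, abs_mul] at h6
      rw [hcd, le_div_iff₀ hdf]
      have h7 : ev P (γ i) * ev Q (γ j) - ev P (γ j) * ev Q (γ i) = wd P Q * wd (γ i) (γ j) := by
        unfold ev wd
        ring
      rw [h7, abs_mul] at h6
      exact h6
  have hne : ∃ i j, wd (γ i) (γ j) ≠ 0 := by
    by_contra hcon
    push Not at hcon
    have hp0 : ∀ i, p (w i) = 0 := by
      intro i
      have h8 : q (w i) • p + (-(p (w i))) • q = 0 := by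
        ext x
        have h9 : (q (w i) • p + (-(p (w i))) • q) x
            = ∑ j, f j x * (q (w i) * p (w j) - p (w i) * q (w j)) := by
          rw [hlin (q (w i) • p + (-(p (w i))) • q) x]
          refine Finset.sum_congr rfl fun j _ => ?_
          have h16 : (q (w i) • p + (-(p (w i))) • q) (w j)
              = q (w i) * p (w j) + (-(p (w i))) * q (w j) := rfl
          rw [h16]
          ring
        rw [h9]
        refine Finset.sum_eq_zero fun j _ => ?_
        have h10 := hcon i j
        simp only [wd, hγ] at h10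
        have h11 : q (w i) * p (w j) - p (w i) * q (w j) = 0 := by linarith
        rw [h11, mul_zero]
      have := (hpair _ _ h8).2
      exact neg_eq_zero.mp this
    have hpz : (1 : ℝ) • p + (0 : ℝ) • q = 0 := by
      rw [one_smul, zero_smul, add_zero]
      ext x
      rw [hlin p x]
      exact Finset.sum_eq_zero fun j _ => by rw [hp0 j, mul_zero]
    exact one_ne_zero (hpair _ _ hpz).1
  have hM : ∃ M : ℝ, 0 < M ∧ (∀ P ∈ U, ∀ Q ∈ U, |wd P Q| ≤ M) ∧
      ∀ i j, M * |wd (γ i) (γ j)| ≤ c := by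
    by_cases hex : ∃ P ∈ U, ∃ Q ∈ U, wd P Q ≠ 0
    · obtain ⟨P0, hP0, Q0, hQ0, hne0⟩ := hex
      have hcont : Continuous (fun z : (ℝ × ℝ) × (ℝ × ℝ) => |wd z.1 z.2|) := by
        unfold wd
        fun_prop
      obtain ⟨z, hz, hzmax⟩ := (hUc.prod hUc).exists_isMaxOn ⟨(P0, Q0), ⟨hP0, hQ0⟩⟩
        hcont.continuousOn
      refine ⟨|wd z.1 z.2|, ?_, ?_, ?_⟩
      · have h12 : |wd P0 Q0| ≤ |wd z.1 z.2| := hzmax (show (P0, Q0) ∈ U ×ˢ U from ⟨hP0, hQ0⟩)
        exact lt_of_lt_of_le (abs_pos.mpr hne0) h12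
      · intro P hP Q hQ
        exact hzmax (show (P, Q) ∈ U ×ˢ U from ⟨hP, hQ⟩)
      · intro i j
        exact hwd z.1 hz.1 z.2 hz.2 i j
    · push Not at hex
      have hS : 0 ≤ ∑ i, ∑ j, |wd (γ i) (γ j)| :=
        Finset.sum_nonneg fun i _ => Finset.sum_nonneg fun j _ => abs_nonneg _
      refine ⟨c / (1 + ∑ i, ∑ j, |wd (γ i) (γ j)|), ?_, ?_, ?_⟩
      · have : 0 < c := lt_of_lt_of_le one_pos hc1
        positivity
      · intro P hP Q hQ
        rw [hex P hP Q hQ, abs_zero]
        positivity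
      · intro i j
        have h13 : |wd (γ i) (γ j)| ≤ 1 + ∑ i, ∑ j, |wd (γ i) (γ j)| := by
          have h14 : |wd (γ i) (γ j)| ≤ ∑ j, |wd (γ i) (γ j)| :=
            Finset.single_le_sum (f := fun j => |wd (γ i) (γ j)|)
              (fun j _ => abs_nonneg _) (Finset.mem_univ j)
          have h15 : ∑ j, |wd (γ i) (γ j)| ≤ ∑ i, ∑ j, |wd (γ i) (γ j)| :=
            Finset.single_le_sum (f := fun i => ∑ j, |wd (γ i) (γ j)|)
              (fun i _ => Finset.sum_nonneg fun j _ => abs_nonneg _) (Finset.mem_univ i)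
          linarith
        rw [div_mul_eq_mul_div, div_le_iff₀ (by positivity)]
        exact mul_le_mul_of_nonneg_left h13 hc0
  obtain ⟨M, hM0, hM1, hM2⟩ := hM
  intro a b S hb hST hbox
  have hinj : Function.Injective (fun (u : E d) (i : Fin d) => f i u) := by
    intro u v huv
    rw [hdec u, hdec v]
    refine Finset.sum_congr rfl fun i _ => ?_
    have := congrFun huv i
    simp only at this
    rw [this]
  have hcard : (S.image (fun (u : E d) (i : Fin d) => f i u)).card = S.card :=
    Finset.card_image_of_injective _ hinj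
  rw [← hcard]
  refine ht d γ U M c hM0 hc1 hM1 hev hM2 hne a b _ hb ?_ ?_
  · intro x hx i
    obtain ⟨u, hu, rfl⟩ := Finset.mem_image.mp hx
    exact hbox u hu i
  · intro x hx y hy hxy
    obtain ⟨t, htS, rfl⟩ := Finset.mem_image.mp hx
    obtain ⟨s, hsS, rfl⟩ := Finset.mem_image.mp hy
    have hts : t ≠ s := fun h => hxy (by rw [h])
    obtain ⟨g', hg', hwg, c', hc'1, hc'2, hc'3⟩ :=
      hs d (Nrm f W) K T hK hKc hKi hNcone hsep t (hST htS) s (hST hsS) hts
    rcases hg' with ⟨i, α, hgα⟩ | hgW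
    · left
      have hα : |α| = 1 := by
        rw [hgα, hwsm, hwf i, mul_one] at hwg
        exact hwg
      have hgx : ∀ u, g' u = α * f i u := by
        intro u
        rw [hgα]
        rfl
      rcases (abs_eq zero_le_one).mp hα with h | h
      · refine ⟨i, c', Or.inl ?_, ?_⟩
        · rw [hgx, h, one_mul] at hc'1 hc'2
          exact ⟨hc'1, hc'2⟩
        · intro z hz
          obtain ⟨u, huS, rfl⟩ := Finset.mem_image.mp hz
          have := hc'3 u (hST huS)
          rw [hgx, h, one_mul] at this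
          exact this
      · refine ⟨i, -c' - 1, Or.inr ?_, ?_⟩
        · rw [hgx, h] at hc'1 hc'2
          constructor
          · linarith
          · linarith
        · intro z hz
          obtain ⟨u, huS, rfl⟩ := Finset.mem_image.mp hz
          have := hc'3 u (hST huS)
          rw [hgx, h] at this
          rcases this with h' | h'
          · right
            linarith
          · left
            linarith
    · right
      obtain ⟨a', b', hab⟩ := Submodule.mem_span_pair.mp (hW hgW)
      have hFP : F (a', b') = g' := hab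
      have hgx : ∀ u, ev (a', b') (pr γ (fun i => f i u)) = g' u := by
        intro u
        rw [← hFx, hFP]
      refine ⟨(a', b'), ⟨by rw [hFP]; exact hwg, by rw [hFP]; exact hgW⟩, c', Or.inl ?_, ?_⟩
      · rw [hgx, hgx]
        exact ⟨hc'1, hc'2⟩
      · intro z hz
        obtain ⟨u, huS, rfl⟩ := Finset.mem_image.mp hz
        rw [hgx]
        exact hc'3 u (hST huS)

end Pool.Agent.H6.TSD
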